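import Pool.Agent.Helper22_DEN2.Br

/-!
Squad DEN2: EQ1, the Jacobi identity for a root vector.
-/

set_option autoImplicit false

open scoped BigOperators

namespace Pool.Agent.DEN.H182

open Pool.Agent.DEN Pool.Agent.DEN.Br

section
variable {r : ℕ} {C : Matrix (Fin r) (Fin r) ℤ} {R : Type} [CommRing R]

/-- double bracket of root vectors -/
noncomputable def T (β γ δ : Rt C) : LieV C R := br (ev β) (br (ev γ) (ev δ))

theorem T_nonneg (hC : SimplyLaced C) (β : Rt C) {γ δ : Rt C} (h : 0 ≤ ip C γ.1 δ.1) :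
    (T β γ δ : LieV C R) = 0 := by
  unfold T
  rw [br_ev_nonneg hC h, br_zero_right hC]

theorem T_opp (hC : SimplyLaced C) (β γ : Rt C) :
    (T β γ γ.neg : LieV C R) = ((ip C γ.1 β.1 : ℤ) : R) • ev β := by
  unfold T
  rw [br_ev_neg hC, br_neg_right hC, br_ev_h β (hv_snd _), pr_hv, neg_smul, neg_neg]

theorem ne_neg {β γ : Rt C} (h : ip C β.1 γ.1 ≠ -2) : γ ≠ β.neg := by
  rintro rfl
  rw [Rt.neg_val, ip_neg_right, β.2] at h
  exact h rfl

/-- the sum of the three roots is a root -/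
theorem T_root (hC : SimplyLaced C) (β : Rt C) {γ δ σ : Rt C} (h : ip C γ.1 δ.1 = -1)
    (hσ : σ.1 = β.1 + (γ.1 + δ.1)) :
    (T β γ δ : LieV C R)
      = ((eps C γ.1 δ.1 * (eps C β.1 γ.1 * eps C β.1 δ.1) : ℤ) : R) • ev σ := by
  have h1 : ip C β.1 (addR hC h).1 = -1 := by
    have h2 := σ.2
    have h3 := (addR hC h).2
    have h4 := β.2
    rw [hσ] at h2
    rw [addR_val] at h3 ⊢
    rw [ip_add_left, ip_add_right C β.1, ip_add_right C (γ.1 + δ.1), h4, h3,
      hC.ip_comm (γ.1 + δ.1) β.1] at h2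
    omega
  unfold T
  rw [br_ev_add hC h (δ := addR hC h) rfl, br_smul_right _ hC, br_ev_add hC h1 (δ := σ) hσ,
    smul_smul, addR_val, eps_add_right]
  push_cast
  rfl

/-- the sum of the three roots is zero -/
theorem T_cart (hC : SimplyLaced C) (β : Rt C) {γ δ : Rt C} (h : ip C γ.1 δ.1 = -1)
    (hσ : β.1 + (γ.1 + δ.1) = 0) :
    (T β γ δ : LieV C R) = -(((eps C γ.1 δ.1 : ℤ) : R) • hv β.1) := by
  have h1 : addR hC h = β.neg := Subtype.ext (by
    rw [addR_val, Rt.neg_val]
    exact (neg_eq_of_add_eq_zero_right hσ).symm)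
  unfold T
  rw [br_ev_add hC h (δ := addR hC h) rfl, br_smul_right _ hC, h1, br_ev_neg hC, smul_neg]

/-- the sum of the three roots is neither zero nor a root -/
theorem T_none (hC : SimplyLaced C) (β : Rt C) {γ δ : Rt C} (h : ip C γ.1 δ.1 ≠ -2)
    (h0 : β.1 + (γ.1 + δ.1) ≠ 0)
    (h2 : ip C (β.1 + (γ.1 + δ.1)) (β.1 + (γ.1 + δ.1)) ≠ 2) : (T β γ δ : LieV C R) = 0 := by
  rcases ip_cases hC γ δ with h1 | h1 | h1
  · exact T_nonneg hC β h1
  · unfold T
    rw [br_ev_add hC h1 (δ := addR hC h1) rfl, br_smul_right _ hC]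
    rcases ip_cases hC β (addR hC h1) with h3 | h3 | h3
    · rw [br_ev_nonneg hC h3, smul_zero]
    · exact absurd (hC.ip_add_self h3) (by rw [addR_val]; exact h2)
    · exfalso
      apply h0
      have := congrArg Subtype.val h3
      rw [addR_val, Rt.neg_val] at this
      rw [this, add_neg_cancel]
  · exact absurd h1 (ne_neg h)

theorem ip_neg_one_of (hC : SimplyLaced C) {β γ : Rt C} (h : ip C β.1 γ.1 ≠ -2)
    (h' : ip C β.1 γ.1 < 0) : ip C β.1 γ.1 = -1 := by
  have := hC.ip_bound β γ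
  omega

theorem eps_odd (hC : SimplyLaced C) {x y : Fin r → ℤ} (h : ip C x y = -1) :
    eps C y x = -eps C x y := by
  have h3 := hC.eps_swap x y
  rw [h, if_neg (by decide)] at h3
  rcases eps_cases (C := C) x y with h1 | h1 <;> rw [h1] at h3 ⊢ <;> linarith

theorem eps_even (hC : SimplyLaced C) {x y : Fin r → ℤ} (h : ip C x y = 0) :
    eps C y x = eps C x y := by
  have h3 := hC.eps_swap x y
  rw [h, if_pos (by decide)] at h3
  rcases eps_cases (C := C) x y with h1 | h1 <;> rw [h1] at h3 ⊢ <;> linarith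

/-- the Jacobi identity when two of the roots are opposite -/
theorem jac_opp (hC : SimplyLaced C) (β γ : Rt C) :
    (T β γ γ.neg + T γ γ.neg β + T γ.neg β γ : LieV C R) = 0 := by
  rw [T_opp hC]
  have hb := hC.ip_bound β γ
  have hcomm := hC.ip_comm γ.1 β.1
  rw [hcomm]
  have hnb : ip C γ.neg.1 β.1 = -ip C β.1 γ.1 := by rw [Rt.neg_val, ip_neg_left, hcomm]
  obtain h | h | h | h | h : ip C β.1 γ.1 = -2 ∨ ip C β.1 γ.1 = -1 ∨ ip C β.1 γ.1 = 0 ∨
      ip C β.1 γ.1 = 1 ∨ ip C β.1 γ.1 = 2 := by omega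
  · have hg : γ = β.neg := hC.ip_eq_neg_two h
    subst hg
    rw [T_nonneg hC _ (by rw [hnb, h]; norm_num), Rt.neg_neg, h]
    have := T_opp (R := R) hC β β
    rw [this, β.2, add_zero, ← add_smul]
    norm_num
  · rw [T_nonneg hC _ (by rw [hnb, h]; norm_num),
      T_root hC γ.neg h (σ := β) (by rw [Rt.neg_val]; abel), Rt.neg_val, eps_neg_left,
      eps_neg_left, hC.eps_self, eps_odd hC h, h, add_zero, ← add_smul]
    have := eps_mul_self (C := C) β.1 γ.1
    rw [← Int.cast_add]
    have e1 : (-1 + eps C β.1 γ.1 * (-eps C β.1 γ.1 * -1) : ℤ) = 0 := by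
      linear_combination this
    rw [e1, Int.cast_zero, zero_smul]
  · rw [T_nonneg hC _ (by rw [hnb, h]; norm_num), T_nonneg hC _ (by rw [h]), h]
    simp
  · have h1 : ip C γ.neg.1 β.1 = -1 := by rw [hnb, h]
    rw [T_nonneg hC γ.neg (by rw [h]; norm_num),
      T_root hC γ h1 (σ := β) (by rw [Rt.neg_val]; abel), Rt.neg_val, eps_neg_left,
      eps_neg_right, hC.eps_self, h, add_zero, ← add_smul]
    have := eps_mul_self (C := C) γ.1 β.1
    rw [← Int.cast_add]
    have e1 : (1 + eps C γ.1 β.1 * (-1 * eps C γ.1 β.1) : ℤ) = 0 := by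
      linear_combination (-1) * this
    rw [e1, Int.cast_zero, zero_smul]
  · have hg : β = γ := hC.ip_eq_two h
    subst hg
    rw [T_nonneg hC β.neg (by rw [h]; norm_num), h]
    have := T_opp (R := R) hC β β.neg
    rw [Rt.neg_neg] at this
    rw [this, Rt.neg_val, ip_neg_left, β.2, add_zero, ← add_smul]
    norm_num

/-- the Jacobi identity for three root vectors -/
theorem jac (hC : SimplyLaced C) (β γ δ : Rt C) :
    (T β γ δ + T γ δ β + T δ β γ : LieV C R) = 0 := by
  by_cases hs : ip C γ.1 δ.1 = -2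
  · have := hC.ip_eq_neg_two hs
    subst this
    exact jac_opp hC β γ
  by_cases hq : ip C δ.1 β.1 = -2
  · have := hC.ip_eq_neg_two hq
    subst this
    have := jac_opp (R := R) hC γ δ
    rw [← this]; abel
  by_cases hp : ip C β.1 γ.1 = -2
  · have := hC.ip_eq_neg_two hp
    subst this
    have := jac_opp (R := R) hC δ β
    rw [← this]; abel
  have hcq := hC.ip_comm δ.1 β.1
  have bs := hC.ip_bound γ δ
  have bq := hC.ip_bound δ β
  have bp := hC.ip_bound β γ
  have hnorm : ip C (β.1 + (γ.1 + δ.1)) (β.1 + (γ.1 + δ.1))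
      = 6 + 2 * (ip C β.1 γ.1 + ip C δ.1 β.1 + ip C γ.1 δ.1) := by
    simp only [ip_add_left, ip_add_right, β.2, γ.2, δ.2, hC.ip_comm γ.1 β.1,
      hC.ip_comm δ.1 γ.1, hC.ip_comm δ.1 β.1]
    ring
  have e1 : γ.1 + (δ.1 + β.1) = β.1 + (γ.1 + δ.1) := by abel
  have e2 : δ.1 + (β.1 + γ.1) = β.1 + (γ.1 + δ.1) := by abel
  by_cases h0 : β.1 + (γ.1 + δ.1) = 0
  · -- all the pairings are `-1`
    rw [h0, ip_zero_left] at hnorm
    have hp1 : ip C β.1 γ.1 = -1 := by omega
    have hq1 : ip C δ.1 β.1 = -1 := by omega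
    have hs1 : ip C γ.1 δ.1 = -1 := by omega
    rw [T_cart hC β hs1 h0, T_cart hC γ hq1 (e1.trans h0), T_cart hC δ hp1 (e2.trans h0)]
    have hδ : δ.1 = -(β.1 + γ.1) := by
      rw [eq_neg_iff_add_eq_zero, ← e2.trans h0]
    have hg : eps C γ.1 δ.1 = eps C β.1 γ.1 := by
      rw [hδ, eps_neg_right, eps_add_right, hC.eps_self, eps_odd hC hp1]
      ring
    have hd : eps C δ.1 β.1 = eps C β.1 γ.1 := by
      rw [hδ, eps_neg_left, eps_add_left, hC.eps_self, eps_odd hC hp1]
      ring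
    have hv3 : (hv δ.1 : LieV C R) = -(hv β.1 + hv γ.1) := by
      refine Prod.ext ?_ ?_
      · funext i
        simp only [hv_fst, Prod.fst_neg, Prod.fst_add, Pi.neg_apply, Pi.add_apply]
        rw [hδ]
        simp only [Pi.neg_apply, Pi.add_apply]
        push_cast
        ring
      · simp
    rw [hg, hd, hv3, smul_neg, smul_add]
    abel
  · by_cases h2 : ip C (β.1 + (γ.1 + δ.1)) (β.1 + (γ.1 + δ.1)) = 2
    · let σ : Rt C := ⟨_, h2⟩
      have hσ : σ.1 = β.1 + (γ.1 + δ.1) := rfl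
      rw [h2] at hnorm
      have hcase : (ip C β.1 γ.1 = -1 ∧ ip C δ.1 β.1 = -1 ∧ ip C γ.1 δ.1 = 0) ∨
          (ip C β.1 γ.1 = -1 ∧ ip C δ.1 β.1 = 0 ∧ ip C γ.1 δ.1 = -1) ∨
          (ip C β.1 γ.1 = 0 ∧ ip C δ.1 β.1 = -1 ∧ ip C γ.1 δ.1 = -1) := by omega
      rcases hcase with ⟨hp1, hq1, hs1⟩ | ⟨hp1, hq1, hs1⟩ | ⟨hp1, hq1, hs1⟩
      · rw [T_nonneg hC β (by rw [hs1]), T_root hC γ hq1 (σ := σ) (hσ.trans e1.symm),
          T_root hC δ hp1 (σ := σ) (hσ.trans e2.symm), zero_add, ← add_smul, ← Int.cast_add]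
        have a1 := eps_odd hC hp1
        have a2 := eps_odd hC hq1
        have a3 := eps_even hC hs1
        rw [a1, a3, show eps C β.1 δ.1 = -eps C δ.1 β.1 from a2] at *
        have : (eps C δ.1 β.1 * (eps C γ.1 δ.1 * -eps C β.1 γ.1) +
          eps C β.1 γ.1 * (eps C δ.1 β.1 * eps C γ.1 δ.1) : ℤ) = 0 := by ring
        rw [this, Int.cast_zero, zero_smul]
      · rw [T_nonneg hC γ (by rw [hq1]), T_root hC β hs1 (σ := σ) hσ,
          T_root hC δ hp1 (σ := σ) (hσ.trans e2.symm), add_zero, ← add_smul, ← Int.cast_add]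
        have a1 := eps_odd hC hs1
        have a2 := eps_even hC hq1
        have : (eps C γ.1 δ.1 * (eps C β.1 γ.1 * eps C β.1 δ.1) +
          eps C β.1 γ.1 * (eps C δ.1 β.1 * eps C δ.1 γ.1) : ℤ) = 0 := by
          rw [a1, a2]; ring
        rw [this, Int.cast_zero, zero_smul]
      · rw [T_nonneg hC δ (by rw [hp1]), T_root hC β hs1 (σ := σ) hσ,
          T_root hC γ hq1 (σ := σ) (hσ.trans e1.symm), add_zero, ← add_smul, ← Int.cast_add]
        have a1 := eps_odd hC hq1
        have a2 := eps_even hC hp1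
        have : (eps C γ.1 δ.1 * (eps C β.1 γ.1 * eps C β.1 δ.1) +
          eps C δ.1 β.1 * (eps C γ.1 δ.1 * eps C γ.1 β.1) : ℤ) = 0 := by
          rw [a1, a2]; ring
        rw [this, Int.cast_zero, zero_smul]
    · rw [T_none hC β hs h0 h2, T_none hC γ hq (by rw [e1]; exact h0) (by rw [e1]; exact h2),
        T_none hC δ hp (by rw [e2]; exact h0) (by rw [e2]; exact h2)]
      simp

/-- the Jacobi identity -/
theorem jacobi (hC : SimplyLaced C) (β : Rt C) (v w : LieV C R) :
    br (ev β) (br v w) = br (br (ev β) v) w + br v (br (ev β) w) := by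
  refine lie_ind hC (p := fun v => br (ev β) (br v w) = br (br (ev β) v) w + br v (br (ev β) w))
    ?_ ?_ ?_ ?_ v
  · intro v v' h1 h2
    rw [br_add_left hC, br_add_right hC, h1, h2, br_add_right hC, br_add_left hC,
      br_add_left hC]
    abel
  · intro c v h1
    rw [br_smul_left c hC, br_smul_right c hC, h1, br_smul_right c hC, br_smul_left c hC,
      br_smul_left c hC, smul_add]
  · intro v hv
    refine lie_ind hC (p := fun w => br (ev β) (br v w) = br (br (ev β) v) w + br v (br (ev β) w))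
      ?_ ?_ ?_ ?_ w
    · intro w w' h1 h2
      rw [br_add_right hC v, br_add_right hC (ev β), h1, h2, br_add_right hC, br_add_right hC (ev β),
        br_add_right hC v]
      abel
    · intro c w h1
      rw [br_smul_right c hC v, br_smul_right c hC (ev β), h1, br_smul_right c hC,
        br_smul_right c hC (ev β), br_smul_right c hC v, smul_add]
    · intro w hw
      rw [br_h_h hC hv hw, br_zero_right hC, br_ev_h β hv, br_ev_h β hw, br_smul_left _ hC,
        br_smul_right _ hC, br_ev_h β hw, br_h_ev hC hv, smul_smul, smul_smul, ← add_smul]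
      have : -pr v β.1 * -pr w β.1 + -pr w β.1 * pr v β.1 = 0 := by ring
      rw [this, zero_smul]
    · intro γ
      rw [br_h_ev hC hv, br_smul_right _ hC, br_ev_h β hv, br_smul_left _ hC]
      rcases ip_cases hC β γ with h | h | h
      · rw [br_ev_nonneg hC h, br_zero_right hC, smul_zero, smul_zero, add_zero]
      · rw [br_ev_add hC h (δ := addR hC h) rfl, br_smul_right _ hC, br_h_ev hC hv, smul_smul,
          smul_smul, smul_smul, ← add_smul, addR_val, pr_add_right]
        congr 1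
        ring
      · subst h
        rw [br_ev_neg hC, br_neg_right hC, br_h_h hC hv (hv_snd _), Rt.neg_val, pr_neg_right,
          neg_zero, add_zero]
  · intro γ
    refine lie_ind hC
      (p := fun w => br (ev β) (br (ev γ) w) = br (br (ev β) (ev γ)) w + br (ev γ) (br (ev β) w))
      ?_ ?_ ?_ ?_ w
    · intro w w' h1 h2
      rw [br_add_right hC (ev γ), br_add_right hC (ev β), h1, h2, br_add_right hC,
        br_add_right hC (ev β), br_add_right hC (ev γ)]
      abel
    · intro c w h1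
      rw [br_smul_right c hC (ev γ), br_smul_right c hC (ev β), h1, br_smul_right c hC,
        br_smul_right c hC (ev β), br_smul_right c hC (ev γ), smul_add]
    · intro w hw
      rw [br_ev_h γ hw, br_smul_right _ hC, br_ev_h β hw, br_smul_right _ hC,
        br_swap hC (ev β) (ev γ)]
      rcases ip_cases hC β γ with h | h | h
      · rw [br_ev_nonneg hC h, br_zero_left hC]
        simp
      · rw [br_ev_add hC h (δ := addR hC h) rfl, br_smul_left _ hC, br_ev_h _ hw, smul_smul,
          smul_smul, smul_neg, smul_smul, addR_val, pr_add_right, ← neg_smul, ← add_smul]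
        congr 1
        ring
      · subst h
        rw [br_ev_neg hC, br_neg_left hC, br_h_h hC (hv_snd _) hw, Rt.neg_val, pr_neg_right]
        simp
    · intro δ
      have := jac (R := R) hC β γ δ
      unfold T at this
      rw [br_swap hC (ev β) (ev δ), br_neg_right hC, br_swap hC (br (ev β) (ev γ)) (ev δ)] at this
      rw [← sub_eq_zero, ← this]
      abel

theorem eq_ev {β : Rt C} {e : LieV C R} (h1 : e.1 = 0) (h2 : e.2 β = 1)
    (h3 : ∀ γ, γ ≠ β → e.2 γ = 0) : e = ev β := by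
  refine Prod.ext h1 ?_
  funext γ
  by_cases h : γ = β
  · subst h; rw [h2, ev_snd_self]
  · rw [h3 γ h, ev_snd_ne h]

end

/-- EQ1 -/
theorem eq1 : Eq1Stmt := by
  intro r C hC R _ β e h1 h2 h3 v w
  rw [eq_ev h1 h2 h3]
  exact jacobi hC β v w

end Pool.Agent.DEN.H182
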