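import Pool.Agent.Helper18_DEN2.Eq1

/-!
Squad DEN2: EQ2, the group acts by automorphisms of the bracket.
-/

set_option autoImplicit false

open scoped BigOperators

namespace Pool.Agent.DEN.H182

open Pool.Agent.DEN Pool.Agent.DEN.Br

section
variable {r : ℕ} {C : Matrix (Fin r) (Fin r) ℤ} {R : Type} [CommRing R]

theorem neg_ne (β : Rt C) : β.neg ≠ β := by
  intro h
  have := congrArg (fun γ : Rt C => ip C β.1 γ.1) h
  simp only [Rt.neg_val, ip_neg_right, β.2] at this
  norm_num at this

theorem ad_neg (β : Rt C) (v : LieV C R) : (br (ev β) v).2 β.neg = 0 := by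
  apply br_ev_snd_other _ _ (neg_ne β)
  rw [Rt.neg_val, ip_neg_right, β.2]
  norm_num

/-- `ad(e_β)² v = 2 v_{-β} e_β` -/
theorem ad_sq (hC : SimplyLaced C) (β : Rt C) (v : LieV C R) :
    br (ev β) (br (ev β) v) = (2 * v.2 β.neg) • (ev β : LieV C R) := by
  refine Prod.ext ?_ ?_
  · funext i
    rw [br_ev_fst, ad_neg]
    simp
  · funext γ
    by_cases h1 : γ = β
    · subst h1
      rw [br_ev_snd_self]
      have := pr_root hC γ γ (v.2 γ.neg) (0 : LieV C R) (br (ev γ) v)
        (fun i => by rw [br_ev_fst]; simp)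
      rw [this, pr_zero, γ.2]
      simp only [Prod.smul_snd, Pi.smul_apply, ev_snd_self, smul_eq_mul]
      push_cast
      ring
    · simp only [Prod.smul_snd, Pi.smul_apply, ev_snd_ne h1, smul_eq_mul, mul_zero]
      by_cases h2 : ip C β.1 γ.1 = 1
      · have h3 : ip C (γ.1 - β.1) (γ.1 - β.1) = 2 := by
          apply hC.ip_sub_self
          rw [hC.ip_comm]; exact h2
        have h4 : ip C β.1 (γ.1 - β.1) = -1 := by
          rw [ip_sub_right, h2, β.2]; norm_num
        rw [br_ev_snd_one _ _ h2, crd_of _ h3, br_ev_snd_other, mul_zero]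
        · intro h
          have := congrArg (fun δ : Rt C => ip C β.1 δ.1) h
          simp only [h4, β.2] at this
          norm_num at this
        · rw [h4]; norm_num
      · rw [br_ev_snd_other _ _ h1 h2]

/-- the identity of second order -/
def Id2 (β : Rt C) (v w : LieV C R) : Prop :=
  (br v w).2 β.neg • (ev β : LieV C R) = v.2 β.neg • br (ev β) w
    + br (br (ev β) v) (br (ev β) w) - w.2 β.neg • br (ev β) v

theorem Id2.swap (hC : SimplyLaced C) {β : Rt C} {v w : LieV C R} (h : Id2 β v w) :
    Id2 β w v := by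
  unfold Id2 at h ⊢
  rw [br_swap hC v w, br_swap hC (br (ev β) v) (br (ev β) w), Prod.snd_neg, Pi.neg_apply, neg_smul,
    h]
  abel

theorem Id2.add_right (hC : SimplyLaced C) {β : Rt C} {v w w' : LieV C R} (h : Id2 β v w)
    (h' : Id2 β v w') : Id2 β v (w + w') := by
  unfold Id2 at h h' ⊢
  rw [br_add_right hC v, br_add_right hC (ev β), br_add_right hC, Prod.snd_add, Pi.add_apply,
    add_smul, h, h', Prod.snd_add, Pi.add_apply, add_smul, smul_add]
  abel

theorem Id2.smul_right (hC : SimplyLaced C) {β : Rt C} {v w : LieV C R} (c : R)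
    (h : Id2 β v w) : Id2 β v (c • w) := by
  unfold Id2 at h ⊢
  rw [br_smul_right c hC v, br_smul_right c hC (ev β), br_smul_right c hC, Prod.smul_snd,
    Pi.smul_apply, smul_eq_mul, mul_smul, h, Prod.smul_snd, Pi.smul_apply, smul_eq_mul, mul_smul,
    smul_sub, smul_add, smul_comm c]

theorem id2_h (hC : SimplyLaced C) (β : Rt C) {v : LieV C R} (hv : v.2 = 0) (w : LieV C R) :
    Id2 β v w := by
  unfold Id2
  rw [br_h hC hv, br_ev_h β hv, br_smul_left _ hC, ad_sq hC, hv]
  simp only [Rt.neg_val, pr_neg_right, Pi.zero_apply, zero_smul, zero_add, smul_smul, ← sub_smul]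
  congr 1
  ring

theorem id2_neg (hC : SimplyLaced C) (β δ : Rt C) : Id2 β (ev β.neg : LieV C R) (ev δ) := by
  unfold Id2
  rw [br_ev_snd_self, pr_ev, neg_zero, zero_smul, ev_snd_self, one_smul, br_ev_neg hC]
  rcases ip_cases hC β δ with h | h | h
  · have : β.neg ≠ δ := by
      rintro rfl
      rw [Rt.neg_val, ip_neg_right, β.2] at h; norm_num at h
    rw [br_ev_nonneg hC h, br_zero_right hC, ev_snd_ne this]
    simp
  · have : β.neg ≠ δ := by
      rintro rfl
      rw [Rt.neg_val, ip_neg_right, β.2] at h; norm_num at h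
    rw [br_ev_add hC h (δ := addR hC h) rfl, ev_snd_ne this, br_smul_right _ hC,
      br_neg_left hC, br_h_ev hC (hv_snd _), pr_hv, addR_val, ip_add_right, β.2, h]
    norm_num
  · subst h
    rw [br_ev_neg hC, ev_snd_self, br_neg_left hC, br_neg_right hC,
      br_h_h hC (hv_snd _) (hv_snd _)]
    simp

theorem br_ev_ev_snd (hC : SimplyLaced C) {γ δ μ : Rt C} (h : γ.1 + δ.1 ≠ μ.1) :
    (br (ev γ) (ev δ) : LieV C R).2 μ = 0 := by
  rcases ip_cases hC γ δ with h1 | h1 | h1
  · rw [br_ev_nonneg hC h1]; rfl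
  · rw [br_ev_add hC h1 (δ := addR hC h1) rfl, Prod.smul_snd, Pi.smul_apply, ev_snd_ne, smul_zero]
    intro h2
    exact h (by rw [h2, addR_val])
  · subst h1
    rw [br_ev_neg hC]
    simp

theorem id2_ev (hC : SimplyLaced C) (β γ δ : Rt C) : Id2 β (ev γ : LieV C R) (ev δ) := by
  by_cases hg : γ = β.neg
  · subst hg; exact id2_neg hC β δ
  by_cases hd : δ = β.neg
  · subst hd; exact (id2_neg hC β γ).swap hC
  unfold Id2
  rw [ev_snd_ne (Ne.symm hg), ev_snd_ne (Ne.symm hd), zero_smul, zero_smul, zero_add, sub_zero]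
  have hneg : (β.neg).1 = -β.1 := rfl
  rcases ip_cases hC β γ with h | h | h
  · rw [br_ev_nonneg hC h, br_zero_left hC, br_ev_ev_snd hC, zero_smul]
    intro h1
    have h2 := congrArg (fun x => ip C γ.1 x) h1
    have h3 := congrArg (fun x => ip C x x) h1
    simp only [ip_add_right, ip_add_left, hneg, ip_neg_right, ip_neg_left, γ.2, δ.2, β.2,
      hC.ip_comm δ.1 γ.1, hC.ip_comm γ.1 β.1] at h2 h3
    omega
  · rcases ip_cases hC β δ with h' | h' | h'
    · rw [br_ev_nonneg hC h', br_zero_right hC, br_ev_ev_snd hC, zero_smul]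
      intro h1
      have h2 := congrArg (fun x => ip C x δ.1) h1
      have h3 := congrArg (fun x => ip C x x) h1
      simp only [ip_add_right, ip_add_left, hneg, ip_neg_right, ip_neg_left, γ.2, δ.2, β.2,
        hC.ip_comm δ.1 γ.1] at h2 h3
      omega
    · rw [br_ev_add hC h (δ := addR hC h) rfl, br_ev_add hC h' (δ := addR hC h') rfl,
        br_smul_left _ hC, br_smul_right _ hC]
      have hip : ip C (addR hC h).1 (addR hC h').1 = ip C γ.1 δ.1 := by
        rw [addR_val, addR_val]
        simp only [ip_add_left, ip_add_right, β.2, hC.ip_comm γ.1 β.1, h, h']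
        ring
      rcases ip_cases hC γ δ with h1 | h1 | h1
      · rw [br_ev_nonneg hC h1, br_ev_nonneg hC (by rw [hip]; exact h1)]
        simp
      · have h2 : ip C (addR hC h).1 (addR hC h').1 = -1 := by rw [hip, h1]
        have h3 : β = addR hC h2 := by
          apply hC.ip_eq_two
          rw [addR_val, addR_val, addR_val]
          simp only [ip_add_right, β.2, h, h']
          norm_num
        have h4 : γ.1 + δ.1 = -β.1 := by
          have := congrArg Subtype.val h3
          rw [addR_val, addR_val, addR_val] at this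
          have h5 : β.1 + γ.1 + (β.1 + δ.1) = β.1 + (β.1 + (γ.1 + δ.1)) := by abel
          rw [h5] at this
          have h6 : β.1 + (γ.1 + δ.1) = 0 := by
            have h7 : β.1 + 0 = β.1 + (β.1 + (γ.1 + δ.1)) := by rw [add_zero]; exact this
            exact (add_left_cancel h7).symm
          exact (neg_eq_of_add_eq_zero_right h6).symm
        have h5 : addR hC h1 = β.neg := Subtype.ext (by rw [addR_val, h4]; rfl)
        rw [br_ev_add hC h1 (δ := addR hC h1) rfl, br_ev_add hC h2 (δ := addR hC h2) rfl, ← h3, h5]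
        simp only [Prod.smul_snd, Pi.smul_apply, ev_snd_self, smul_smul, smul_eq_mul, mul_one]
        congr 1
        rw [addR_val, addR_val, eps_add_left, eps_add_right, eps_add_right, hC.eps_self,
          eps_odd hC h]
        rw [← Int.cast_mul, ← Int.cast_mul]
        congr 1
        have a1 := eps_mul_self (C := C) β.1 γ.1
        have a2 := eps_mul_self (C := C) β.1 δ.1
        linear_combination (-eps C γ.1 δ.1) * a1 * 1 -
          eps C γ.1 δ.1 * (eps C β.1 γ.1 * eps C β.1 γ.1) * (a2)
      · subst h1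
        exfalso
        rw [Rt.neg_val, ip_neg_right, h] at h'
        norm_num at h'
    · exact absurd h' hd
  · exact absurd h hg

theorem id2 (hC : SimplyLaced C) (β : Rt C) (v w : LieV C R) : Id2 β v w := by
  refine lie_ind hC (p := fun v => Id2 β v w) ?_ ?_ ?_ ?_ v
  · intro v v' h1 h2
    exact ((h1.swap hC).add_right hC (h2.swap hC)).swap hC
  · intro c v h1
    exact ((h1.swap hC).smul_right hC c).swap hC
  · intro v hv
    exact id2_h hC β hv w
  · intro γ
    refine lie_ind hC (p := fun w => Id2 β (ev γ) w) ?_ ?_ ?_ ?_ w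
    · intro w w' h1 h2
      exact h1.add_right hC h2
    · intro c w h1
      exact h1.smul_right hC c
    · intro w hw
      exact (id2_h hC β hw _).swap hC
    · intro δ
      exact id2_ev hC β γ δ

/-- the root elements are automorphisms of the bracket -/
theorem rootMap_br (hC : SimplyLaced C) (β : Rt C) (a : R) (v w : LieV C R) :
    rootMap β a (br v w) = br (rootMap β a v) (rootMap β a w) := by
  have h2 := id2 hC β v w
  unfold Id2 at h2
  have hee : br (ev β) (ev β) = (0 : LieV C R) := br_ev_nonneg hC (by rw [β.2]; norm_num)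
  rw [rootMap_eq, rootMap_eq, rootMap_eq, jacobi hC β v w, mul_smul (a ^ 2), h2]
  simp only [br_add_left hC, br_add_right hC, br_smul_left _ hC, br_smul_right _ hC]
  rw [br_swap hC (ev β) v, br_swap hC (ev β) (br (ev β) v), ad_sq hC, ad_sq hC, hee]
  simp only [smul_add, smul_sub, smul_neg, smul_smul, smul_zero, add_zero]
  have e1 : a * (a ^ 2 * w.2 β.neg * (2 * v.2 β.neg))
      = a ^ 2 * v.2 β.neg * (a * (2 * w.2 β.neg)) := by ring
  rw [e1, ← pow_two a]
  abel

end

/-- EQ2 -/
theorem eqv : EqvStmt := by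
  intro r C hC K _ g v w
  obtain ⟨g, hg⟩ := g
  change g (br v w) = br (g v) (g w)
  unfold grp at hg
  induction hg using Subgroup.closure_induction generalizing v w with
  | mem x hx =>
    obtain ⟨β, a, h⟩ := hx
    rw [h, h, h, rootMap_br hC]
  | one => rfl
  | mul x y hx hy h1 h2 =>
    change x (y (br v w)) = br (x (y v)) (x (y w))
    rw [h2, h1]
  | inv x hx h1 =>
    have e1 : ∀ z, x ((x⁻¹ : LieV C (FF K) ≃ₗ[FF K] LieV C (FF K)) z) = z := fun z =>
      x.apply_symm_apply z
    have e2 := h1 ((x⁻¹ : LieV C (FF K) ≃ₗ[FF K] LieV C (FF K)) v)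
      ((x⁻¹ : LieV C (FF K) ≃ₗ[FF K] LieV C (FF K)) w)
    rw [e1, e1] at e2
    rw [← e2]
    exact x.symm_apply_apply _

end Pool.Agent.DEN.H182
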